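import Pool.Agent.FB.HopfC.Coef

/-! MP_15d50e_gt, module HOPF: Laurent expansion of `z² q(z)`, the coefficients `h_n`. -/

set_option autoImplicit false

open Complex Set
open scoped ComplexConjugate Real

namespace FB

theorem neg_one_natAbs_sub (n k : ℤ) :
    (-1 : ℂ) ^ (n - k).natAbs = (-1) ^ n.natAbs * (-1) ^ k.natAbs := by
  have h : ∀ m : ℤ, (-1 : ℂ) ^ m.natAbs = (-1 : ℂ) ^ m := by
    intro m
    rcases Int.natAbs_eq m with h | h
    · conv_rhs => rw [h]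
      rw [zpow_natCast]
    · conv_rhs => rw [h]
      rw [zpow_neg, zpow_natCast]
      rcases neg_one_pow_eq_or ℂ m.natAbs with h' | h' <;> rw [h'] <;> norm_num
  rw [h, h, h, zpow_sub₀ (by norm_num)]
  rcases neg_one_pow_eq_or ℂ k.natAbs with h' | h'
  · rw [h k] at h'
    rw [h']
    norm_num
  · rw [h k] at h'
    rw [h']
    ring

/-- `s_n = (-1)^n s_n`. -/
theorem sH_sign (β : ℝ) (a b : ℕ → ℂ) (n : ℤ) :
    sH β a b n = (-1) ^ n.natAbs * sH β a b n := by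
  have h1 : sH β a b n = ∑' k : ℤ, yH β a b k * ((-1) ^ (n - k).natAbs * yH β a b (n - k)) := rfl
  have h2 : ∑' k : ℤ, yH β a b k * ((-1) ^ (n - k).natAbs * yH β a b (n - k)) =
      ∑' k : ℤ, yH β a b (n - k) * ((-1) ^ k.natAbs * yH β a b k) := by
    rw [← (Equiv.subLeft n).tsum_eq]
    refine tsum_congr fun k => ?_
    simp only [Equiv.subLeft_apply, sub_sub_cancel]
  rw [h1]
  conv_lhs => rw [h2]
  rw [← tsum_mul_left]
  refine tsum_congr fun k => ?_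
  rw [neg_one_natAbs_sub]
  have h3 : ((-1 : ℂ) ^ n.natAbs) * (-1) ^ n.natAbs = 1 := by
    rw [← mul_pow]
    norm_num
  linear_combination (-(yH β a b (n - k) * ((-1) ^ k.natAbs * yH β a b k))) * h3

theorem sH_odd (β : ℝ) (a b : ℕ → ℂ) (n : ℤ) (hn : n % 2 = 1) : sH β a b n = 0 := by
  have h := sH_sign β a b n
  have ho : Odd n.natAbs := Int.natAbs_odd.2 (Int.odd_iff.2 hn)
  rw [ho.neg_one_pow] at h
  have h2 : 2 * sH β a b n = 0 := by linear_combination h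
  simpa using h2

/-- The combination of the four series. -/
theorem hH_comb (β : ℝ) (a b : ℕ → ℂ) (n : ℤ) :
    sH β a b n + sH β a b n * I ^ n + conj (sH β a b n) + conj (sH β a b n) * (-I) ^ n =
      hH β a b n := by
  have h4 : I ^ (4 : ℤ) = 1 := by
    rw [show (4 : ℤ) = ((4 : ℕ) : ℤ) by norm_num, zpow_natCast, I_pow_four]
  have h4' : (-I) ^ (4 : ℤ) = 1 := by
    rw [show (4 : ℤ) = ((4 : ℕ) : ℤ) by norm_num, zpow_natCast, neg_pow, I_pow_four]
    norm_num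
  have hI : I ≠ 0 := I_ne_zero
  have hI' : -I ≠ 0 := neg_ne_zero.2 I_ne_zero
  unfold hH
  have hcases : n % 4 = 0 ∨ n % 4 = 2 ∨ n % 2 = 1 := by omega
  rcases hcases with h | h | h
  · have hd : (4 : ℤ) ∣ n := Int.dvd_of_emod_eq_zero h
    rw [if_pos hd]
    obtain ⟨m, rfl⟩ := hd
    rw [zpow_mul, zpow_mul, h4, h4', one_zpow]
    have h5 := Complex.add_conj (sH β a b (4 * m))
    push_cast at h5 ⊢
    linear_combination 2 * h5
  · have hd : ¬ (4 : ℤ) ∣ n := by omega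
    rw [if_neg hd]
    obtain ⟨m, hm⟩ : ∃ m, n = 4 * m + 2 := ⟨n / 4, by omega⟩
    have e1 : I ^ n = -1 := by
      rw [hm, zpow_add₀ hI, zpow_mul, h4, one_zpow,
        show (2 : ℤ) = ((2 : ℕ) : ℤ) by norm_num, zpow_natCast, I_sq]
      ring
    have e2 : (-I) ^ n = -1 := by
      rw [hm, zpow_add₀ hI', zpow_mul, h4', one_zpow,
        show (2 : ℤ) = ((2 : ℕ) : ℤ) by norm_num, zpow_natCast, neg_sq, I_sq]
      ring
    rw [e1, e2]
    ring
  · have hd : ¬ (4 : ℤ) ∣ n := by omega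
    rw [if_neg hd, sH_odd β a b n h]
    simp

theorem hH_exp {t β : ℝ} {a b : ℕ → ℂ} {ψ ω : ℂ → ℂ} (t0 : 0 < t)
    (hb : Summable (fun n : ℕ => 2 ^ n * ‖b n‖)) (hL : IsLocal t β a b ψ ω) :
    ∀ z : ℂ, t / 2 < ‖z‖ → ‖z‖ < 7 / 8 →
      HasSum (fun n : ℤ => hH β a b n * (z / t) ^ n) (z ^ 2 * qH ω z) := by
  intro z h1 h2
  have hIz : ‖I * z‖ = ‖z‖ := by rw [norm_mul, norm_I, one_mul]
  have hcz : ‖conj z‖ = ‖z‖ := Complex.norm_conj z
  have hIcz : ‖I * conj z‖ = ‖z‖ := by rw [norm_mul, norm_I, one_mul, hcz]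
  have s1 := sH_hasSum t0 hb hL h1 h2
  have s2 := sH_hasSum t0 hb hL (z := I * z) (by rwa [hIz]) (by rwa [hIz])
  have s3 := hasSum_conj'.2 (sH_hasSum t0 hb hL (z := conj z) (by rwa [hcz]) (by rwa [hcz]))
  have s4 := hasSum_conj'.2 (sH_hasSum t0 hb hL (z := I * conj z) (by rwa [hIcz]) (by rwa [hIcz]))
  refine hopf_congr (((s1.add s2).add s3).add s4) (fun n => ?_) ?_
  · rw [← hH_comb]
    have e2 : (I * z / t) ^ n = I ^ n * (z / t) ^ n := by
      rw [mul_div_assoc, mul_zpow]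
    have e3 : conj (sH β a b n * (conj z / t) ^ n) = conj (sH β a b n) * (z / t) ^ n := by
      rw [map_mul, map_zpow₀, map_div₀, conj_conj, conj_ofReal]
    have e4 : conj (sH β a b n * (I * conj z / t) ^ n) =
        conj (sH β a b n) * ((-I) ^ n * (z / t) ^ n) := by
      rw [map_mul, map_zpow₀, map_div₀, map_mul, conj_conj, conj_ofReal, conj_I, mul_div_assoc,
        mul_zpow]
    rw [e2, e3, e4]
    ring
  · rw [qH_eq]
    simp only [map_neg, map_mul, map_pow, conj_conj, conj_I]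
    have hI2 : (I : ℂ) ^ 2 = -1 := I_sq
    linear_combination (mH ω (I * z) * z ^ 2 + conj (mH ω (I * conj z)) * z ^ 2) * hI2

theorem hH_four (β : ℝ) (a b : ℕ → ℂ) : ∀ n : ℤ, ¬ (4 : ℤ) ∣ n → hH β a b n = 0 := by
  intro n hn
  unfold hH
  rw [if_neg hn]

theorem hH_zero {β : ℝ} {a b : ℕ → ℂ} (ha : Summable (fun n : ℕ => 2 ^ n * ‖a n‖))
    (hb : Summable (fun n : ℕ => 2 ^ n * ‖b n‖))
    (hθ : β ^ 2 = 8 * ∑' n : ℕ, (n : ℝ) ^ 2 * (a n * conj (b n)).re) : hH β a b 0 = 0 := by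
  -- summability of n^2 a_n conj b_n
  have hB : Summable fun n : ℕ => (n : ℂ) ^ 2 * (a n * conj (b n)) := by
    refine Summable.of_norm ?_
    refine Summable.of_nonneg_of_le (fun n => norm_nonneg _) (fun n => ?_)
      (ha.mul_left (∑' n : ℕ, 2 ^ n * ‖b n‖))
    have h3 : 2 ^ n * ‖b n‖ ≤ ∑' n : ℕ, 2 ^ n * ‖b n‖ :=
      hb.le_tsum n fun m _ => by positivity
    have h4 : (n : ℝ) ≤ 2 ^ n := by exact_mod_cast (Nat.lt_two_pow_self (n := n)).le
    rw [norm_mul, norm_mul, norm_pow, Complex.norm_natCast, RCLike.norm_conj]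
    calc (n : ℝ) ^ 2 * (‖a n‖ * ‖b n‖) ≤ (2 ^ n) ^ 2 * (‖a n‖ * ‖b n‖) := by gcongr
      _ = (2 ^ n * ‖b n‖) * (2 ^ n * ‖a n‖) := by ring
      _ ≤ _ := mul_le_mul_of_nonneg_right h3 (by positivity)
  obtain ⟨T, hT⟩ := hB
  have hTre : (∑' n : ℕ, (n : ℝ) ^ 2 * (a n * conj (b n)).re) = T.re := by
    have h1 := Complex.hasSum_re hT
    rw [← h1.tsum_eq]
    refine tsum_congr fun n => ?_
    rw [show ((n : ℂ) ^ 2) = (((n : ℝ) ^ 2 : ℝ) : ℂ) by push_cast; rfl, Complex.re_ofReal_mul]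
  have hs : sH β a b 0 = (β : ℂ) ^ 2 / 4 - 2 * T := by
    have h1 : sH β a b 0 = ∑' k : ℤ, yH β a b k * cj (yH β a b) (0 - k) := rfl
    rw [h1]
    have hterm : ∀ n : ℕ, yH β a b (n : ℤ) * cj (yH β a b) (0 - (n : ℤ)) =
        (if n = 0 then (β : ℂ) ^ 2 / 4 else 0) + -((n : ℂ) ^ 2 * (a n * conj (b n))) := by
      intro n
      rcases n with _ | n
      · simp [cj, yH]
        ring
      · have e1 : (0 : ℤ) - ((n + 1 : ℕ) : ℤ) = -((n : ℤ) + 1) := by push_cast; ring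
        rw [e1, yH_natCast]
        unfold cj
        rw [yH_neg_succ, show (-((n : ℤ) + 1)).natAbs = n + 1 by omega]
        have h3 : ((-1 : ℂ) ^ (n + 1)) * (-1) ^ (n + 1) = 1 := by
          rw [← mul_pow]
          norm_num
        simp only [Nat.succ_ne_zero, if_false, zero_add]
        linear_combination (-(((n + 1 : ℕ) : ℂ) ^ 2 * (a (n + 1) * conj (b (n + 1))))) * h3
    have hterm2 : ∀ n : ℕ, yH β a b (-((n : ℤ) + 1)) * cj (yH β a b) (0 - (-((n : ℤ) + 1))) =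
        -(((n + 1 : ℕ) : ℂ) ^ 2 * (a (n + 1) * conj (b (n + 1)))) := by
      intro n
      have e1 : (0 : ℤ) - (-((n : ℤ) + 1)) = ((n + 1 : ℕ) : ℤ) := by push_cast; ring
      rw [e1, yH_neg_succ]
      unfold cj
      rw [yH_natCast, show (((n + 1 : ℕ) : ℤ)).natAbs = n + 1 by omega]
      have h3 : ((-1 : ℂ) ^ (n + 1)) * (-1) ^ (n + 1) = 1 := by
        rw [← mul_pow]
        norm_num
      simp only [Nat.succ_ne_zero, if_false, zero_add]
      linear_combination (-(((n + 1 : ℕ) : ℂ) ^ 2 * (a (n + 1) * conj (b (n + 1))))) * h3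
    have hp : HasSum (fun n : ℕ => yH β a b (n : ℤ) * cj (yH β a b) (0 - (n : ℤ)))
        ((β : ℂ) ^ 2 / 4 + -T) :=
      hopf_congr ((hasSum_ite_eq (0 : ℕ) ((β : ℂ) ^ 2 / 4)).add hT.neg) hterm rfl
    have hn : HasSum (fun n : ℕ => yH β a b (-((n : ℤ) + 1)) *
        cj (yH β a b) (0 - (-((n : ℤ) + 1)))) (-T) := by
      have h3 : HasSum (fun n : ℕ => ((n + 1 : ℕ) : ℂ) ^ 2 * (a (n + 1) * conj (b (n + 1)))) T := by
        have := (hasSum_nat_add_iff' (f := fun n : ℕ => (n : ℂ) ^ 2 * (a n * conj (b n))) 1).2 hT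
        simpa using this
      exact hopf_congr h3.neg hterm2 rfl
    have htot := HasSum.of_nat_of_neg_add_one
      (f := fun k : ℤ => yH β a b k * cj (yH β a b) (0 - k)) hp hn
    rw [htot.tsum_eq]
    ring
  unfold hH
  rw [if_pos (dvd_zero _), hs]
  have h5 : ((β : ℂ) ^ 2 / 4 - 2 * T).re = β ^ 2 / 4 - 2 * T.re := by
    have : ((β : ℂ) ^ 2 / 4 - 2 * T) = ((β ^ 2 / 4 : ℝ) : ℂ) - ((2 : ℝ) : ℂ) * T := by
      push_cast
      ring
    rw [this, Complex.sub_re, Complex.ofReal_re, Complex.re_ofReal_mul]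
  rw [h5]
  rw [hTre] at hθ
  rw [hθ]
  norm_cast
  ring

end FB
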