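import Pool.Agent.FB.HopfC.Def
import Pool.Agent.FB.GeoA.Lat

/-! MP_15d50e_gt, module HOPF: the function `qH` is holomorphic, periodic and anti-invariant under
the rotation by `i`. -/

set_option autoImplicit false

open Complex Set
open scoped ComplexConjugate Real

namespace FB

theorem hopf_chi_mul_neg (κ : ℂ) (p : ℤ × ℤ) : chi κ p * chi κ (-p) = 1 := by
  unfold chi
  rw [← Complex.exp_add]
  simp only [Prod.fst_neg, Prod.snd_neg, Int.cast_neg]
  rw [← Complex.exp_zero]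
  congr 1
  push_cast
  ring

/-- `m(w) = ω(w) ω(-w)`. -/
noncomputable def mH (ω : ℂ → ℂ) (w : ℂ) : ℂ := ω w * ω (-w)

theorem qH_eq (ω : ℂ → ℂ) (z : ℂ) : qH ω z =
    -(mH ω z) + mH ω (I * z) - conj (mH ω (conj z)) + conj (mH ω (I * conj z)) := rfl

theorem mH_neg (ω : ℂ → ℂ) (w : ℂ) : mH ω (-w) = mH ω w := by
  unfold mH
  rw [neg_neg, mul_comm]

theorem mH_diff {s : ℝ} {ω : ℂ → ℂ} (h : DifferentiableOn ℂ ω (US s)) {w : ℂ} (hw : w ∈ US s) :
    DifferentiableAt ℂ (mH ω) w := by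
  have h1 : DifferentiableAt ℂ ω w := h.differentiableAt ((isOpen_US s).mem_nhds hw)
  have h2 : DifferentiableAt ℂ ω (-w) := h.differentiableAt ((isOpen_US s).mem_nhds (US_neg hw))
  exact h1.mul (h2.comp w differentiableAt_id.neg)

theorem qH_diff {s : ℝ} {ω : ℂ → ℂ} (h : DifferentiableOn ℂ ω (US s)) :
    DifferentiableOn ℂ (qH ω) (US s) := by
  intro z hz
  refine DifferentiableAt.differentiableWithinAt ?_
  have h1 : DifferentiableAt ℂ (mH ω) z := mH_diff h hz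
  have hI : DifferentiableAt ℂ (fun w : ℂ => I * w) z := by fun_prop
  have h2 : DifferentiableAt ℂ (fun w : ℂ => mH ω (I * w)) z :=
    (mH_diff h (US_I hz)).comp z hI
  have h3 : DifferentiableAt ℂ (conj ∘ (mH ω) ∘ conj) z := by
    have := (mH_diff h (US_conj hz)).conj_conj
    rwa [conj_conj] at this
  have h4 : DifferentiableAt ℂ (conj ∘ (fun w : ℂ => mH ω (I * w)) ∘ conj) z := by
    have hI' : DifferentiableAt ℂ (fun w : ℂ => I * w) (conj z) := by fun_prop
    have := ((mH_diff h (US_I (US_conj hz))).comp (conj z) hI').conj_conj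
    rw [conj_conj] at this
    exact this
  exact ((h1.neg.add h2).sub h3).add h4

theorem mH_per {κ : ℂ} {s : ℝ} {ψ ω : ℂ → ℂ} (h : IsBlochHarm κ s ψ ω) {w : ℂ} (hw : w ∈ US s)
    (p : ℤ × ℤ) : mH ω (w + lp p) = mH ω w := by
  unfold mH
  have h1 : -(w + lp p) = -w + lp (-p) := by rw [lp_neg]; ring
  rw [h1, h.ω_bloch hw p, h.ω_bloch (US_neg hw) (-p)]
  linear_combination (ω w * ω (-w)) * hopf_chi_mul_neg κ p

theorem qH_per {κ : ℂ} {s : ℝ} {ψ ω : ℂ → ℂ} (h : IsBlochHarm κ s ψ ω) :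
    ∀ z ∈ US s, ∀ p : ℤ × ℤ, qH ω (z + lp p) = qH ω z := by
  intro z hz p
  rw [qH_eq, qH_eq, mH_per h hz p, mul_add, I_mul_lp, mH_per h (US_I hz), map_add, conj_lp,
    mH_per h (US_conj hz), mul_add, I_mul_lp, mH_per h (US_I (US_conj hz))]

theorem qH_rot (ω : ℂ → ℂ) (z : ℂ) : qH ω (I * z) = -qH ω z := by
  rw [qH_eq, qH_eq]
  have h1 : I * (I * z) = -z := by rw [← mul_assoc, I_mul_I]; ring
  have h2 : conj (I * z) = -(I * conj z) := by rw [map_mul, conj_I]; ring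
  have h3 : I * -(I * conj z) = conj z := by
    rw [mul_neg, ← mul_assoc, I_mul_I]
    ring
  rw [h1, h2, h3, mH_neg, mH_neg]
  ring

end FB
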