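import Pool.Agent.FB.HopfC.Basic

/-! MP_15d50e_gt, module HOPF: Laurent expansion of `z² q(z)`. -/

set_option autoImplicit false

open Complex Set
open scoped ComplexConjugate Real

namespace FB

theorem hopf_congr {ι : Type*} {f g : ι → ℂ} {a b : ℂ} (hg : HasSum g b) (h : ∀ m, f m = g m)
    (hab : a = b) : HasSum f a := by
  have : f = g := funext h
  rw [this, hab]
  exact hg

/-! ### Products of Laurent series -/

theorem hopf_mul {F G : ℤ → ℂ} {X Y : ℂ} (hF : HasSum F X) (hG : HasSum G Y) :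
    HasSum (fun p : ℤ × ℤ => F p.2 * G (p.1 - p.2)) (X * Y) := by
  have hs : Summable fun p : ℤ × ℤ => F p.1 * G p.2 :=
    summable_mul_of_summable_norm hF.summable.norm hG.summable.norm
  have h1 : HasSum (fun p : ℤ × ℤ => F p.1 * G p.2) (X * Y) := HasSum.mul hF hG hs
  let e : ℤ × ℤ ≃ ℤ × ℤ :=
    { toFun := fun p => (p.2, p.1 - p.2)
      invFun := fun p => (p.1 + p.2, p.1)
      left_inv := fun p => by simp
      right_inv := fun p => by simp }
  have h3 := (Equiv.hasSum_iff e).2 h1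
  exact h3

theorem conv_hasSum {x y : ℤ → ℂ} {w X Y : ℂ} (hw : w ≠ 0)
    (hx : HasSum (fun n => x n * w ^ n) X) (hy : HasSum (fun n => y n * w ^ n) Y) :
    HasSum (fun n => conv x y n * w ^ n) (X * Y) := by
  have h2 : HasSum (fun p : ℤ × ℤ => (x p.2 * y (p.1 - p.2)) * w ^ p.1) (X * Y) := by
    refine hopf_congr (hopf_mul hx hy) ?_ rfl
    intro p
    have : w ^ p.1 = w ^ p.2 * w ^ (p.1 - p.2) := by
      rw [← zpow_add₀ hw]
      congr 1
      ring
    rw [this]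
    ring
  refine h2.prod_fiberwise fun n => ?_
  have h4 : Summable fun k : ℤ => (x k * y (n - k)) * w ^ n := h2.summable.prod_factor n
  have h5 : Summable fun k : ℤ => x k * y (n - k) :=
    (summable_mul_right_iff (zpow_ne_zero n hw)).1 h4
  exact h5.hasSum.mul_right _

/-! ### Laurent series of `z ω(z)` -/

theorem hopf_summable_b {b : ℕ → ℂ} (hb : Summable (fun n : ℕ => 2 ^ n * ‖b n‖)) {r : ℝ}
    (h0 : 0 ≤ r) (h2 : r < 2) : Summable fun n : ℕ => (n : ℝ) * ‖b n‖ * r ^ n := by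
  have h1 : Summable fun n : ℕ => ((n : ℝ) ^ 1) * (r / 2) ^ n := by
    refine summable_pow_mul_geometric_of_norm_lt_one 1 ?_
    rw [Real.norm_of_nonneg (by positivity)]
    linarith
  refine Summable.of_nonneg_of_le (fun n => by positivity) (fun n => ?_)
    (hb.mul_left (∑' n : ℕ, ((n : ℝ) ^ 1) * (r / 2) ^ n))
  have h3 : ((n : ℝ) ^ 1) * (r / 2) ^ n ≤ ∑' n : ℕ, ((n : ℝ) ^ 1) * (r / 2) ^ n :=
    h1.le_tsum n fun m _ => by positivity
  calc (n : ℝ) * ‖b n‖ * r ^ n = (((n : ℝ) ^ 1) * (r / 2) ^ n) * (2 ^ n * ‖b n‖) := by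
        rw [div_pow]
        field_simp
    _ ≤ _ := mul_le_mul_of_nonneg_right h3 (by positivity)

theorem yH_natCast (β : ℝ) (a b : ℕ → ℂ) (n : ℕ) :
    yH β a b (n : ℤ) = (if n = 0 then (β : ℂ) / 2 else 0) + (n : ℂ) * a n := by
  unfold yH
  by_cases hn : n = 0
  · subst hn
    simp
  · have : (0 : ℤ) < (n : ℤ) := by exact_mod_cast Nat.pos_of_ne_zero hn
    rw [if_pos this, if_neg hn]
    simp

theorem yH_neg_succ (β : ℝ) (a b : ℕ → ℂ) (n : ℕ) :
    yH β a b (-((n : ℤ) + 1)) = -(((n + 1 : ℕ) : ℂ) * (-1) ^ (n + 1) * conj (b (n + 1))) := by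
  unfold yH
  have h1 : ¬ (0 : ℤ) < -((n : ℤ) + 1) := by omega
  have h2 : -((n : ℤ) + 1) < 0 := by omega
  have h3 : (-((n : ℤ) + 1)).natAbs = n + 1 := by omega
  rw [if_neg h1, if_pos h2, h3]
  push_cast
  ring

theorem zw_hasSum {t β : ℝ} {a b : ℕ → ℂ} {ψ ω : ℂ → ℂ} (t0 : 0 < t)
    (hb : Summable (fun n : ℕ => 2 ^ n * ‖b n‖)) (hL : IsLocal t β a b ψ ω) {z : ℂ}
    (h1 : t / 2 < ‖z‖) (h2 : ‖z‖ < 7 / 8) :
    HasSum (fun n : ℤ => yH β a b n * (z / t) ^ n) (z * ω z) := by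
  have hz : z ≠ 0 := by
    intro h
    rw [h, norm_zero] at h1
    linarith
  have htc : (t : ℂ) ≠ 0 := by exact_mod_cast t0.ne'
  have hw : z / t ≠ 0 := div_ne_zero hz htc
  have hom := hL.om z h1 h2
  -- the singular part
  have hB : Summable fun n : ℕ => (n : ℂ) * (-1) ^ n * conj (b n) * (t / z) ^ n := by
    refine Summable.of_norm ?_
    have hr : t / ‖z‖ < 2 := by
      rw [div_lt_iff₀ (by linarith)]
      linarith
    refine (hopf_summable_b hb (r := t / ‖z‖) (by positivity) hr).congr fun n => ?_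
    rw [norm_mul, norm_mul, norm_mul, norm_pow, norm_pow, norm_div, norm_neg, norm_one, one_pow,
      mul_one, RCLike.norm_conj, Complex.norm_real, Real.norm_of_nonneg t0.le, Complex.norm_natCast]
  have hA : Summable fun n : ℕ => (n : ℂ) * a n * (z / t) ^ n := by
    refine (hom.summable.add hB).congr fun n => ?_
    ring
  obtain ⟨SB, hSB⟩ := hB
  obtain ⟨SA, hSA⟩ := hA
  have hval : SA - SB = z * ω z - β / 2 := by
    refine HasSum.unique (hSA.sub hSB) (hopf_congr hom (fun n => ?_) rfl)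
    ring
  have hpos : HasSum (fun n : ℕ => yH β a b (n : ℤ) * (z / t) ^ (n : ℤ)) (β / 2 + SA) := by
    refine hopf_congr ((hasSum_ite_eq (0 : ℕ) ((β : ℂ) / 2)).add hSA) (fun n => ?_) rfl
    rw [yH_natCast, zpow_natCast]
    by_cases hn : n = 0
    · subst hn
      simp
    · simp [hn]
  have hneg : HasSum (fun n : ℕ => yH β a b (-((n : ℤ) + 1)) * (z / t) ^ (-((n : ℤ) + 1)))
      (-SB) := by
    have h3 : HasSum (fun n : ℕ =>
        ((n + 1 : ℕ) : ℂ) * (-1) ^ (n + 1) * conj (b (n + 1)) * (t / z) ^ (n + 1)) SB := by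
      have := (hasSum_nat_add_iff' (f := fun n : ℕ =>
        (n : ℂ) * (-1) ^ n * conj (b n) * (t / z) ^ n) 1).2 hSB
      simpa using this
    refine hopf_congr h3.neg (fun n => ?_) rfl
    rw [yH_neg_succ]
    have h4 : (z / t) ^ (-((n : ℤ) + 1)) = (t / z) ^ (n + 1) := by
      rw [zpow_neg, ← inv_zpow, inv_div]
      norm_cast
    rw [h4]
    ring
  have htot := HasSum.of_nat_of_neg_add_one (f := fun n : ℤ => yH β a b n * (z / t) ^ n) hpos hneg
  refine hopf_congr htot (fun n => rfl) ?_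
  linear_combination -hval

theorem cj_hasSum {x : ℤ → ℂ} {w X : ℂ} (hx : HasSum (fun n => x n * (-w) ^ n) X) :
    HasSum (fun n => cj x n * w ^ n) X := by
  refine hopf_congr hx (fun n => ?_) rfl
  unfold cj
  have h1 : (-w) ^ n = (-1 : ℂ) ^ n.natAbs * w ^ n := by
    rw [neg_eq_neg_one_mul, mul_zpow]
    congr 1
    rcases Int.natAbs_eq n with h | h
    · conv_lhs => rw [h]
      rw [zpow_natCast]
    · conv_lhs => rw [h]
      rw [zpow_neg, zpow_natCast]
      rcases neg_one_pow_eq_or ℂ n.natAbs with h' | h' <;> rw [h'] <;> norm_num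
  rw [h1]
  ring

/-- The expansion of `-z² ω(z) ω(-z)`. -/
theorem sH_hasSum {t β : ℝ} {a b : ℕ → ℂ} {ψ ω : ℂ → ℂ} (t0 : 0 < t)
    (hb : Summable (fun n : ℕ => 2 ^ n * ‖b n‖)) (hL : IsLocal t β a b ψ ω) {z : ℂ}
    (h1 : t / 2 < ‖z‖) (h2 : ‖z‖ < 7 / 8) :
    HasSum (fun n : ℤ => sH β a b n * (z / t) ^ n) (-(z ^ 2 * mH ω z)) := by
  have hz : z ≠ 0 := by
    intro h
    rw [h, norm_zero] at h1
    linarith
  have htc : (t : ℂ) ≠ 0 := by exact_mod_cast t0.ne'
  have hw : z / t ≠ 0 := div_ne_zero hz htc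
  have hy := zw_hasSum t0 hb hL h1 h2
  have hy' := zw_hasSum t0 hb hL (z := -z) (by rwa [norm_neg]) (by rwa [norm_neg])
  rw [neg_div] at hy'
  refine hopf_congr (conv_hasSum hw hy (cj_hasSum hy')) (fun n => rfl) ?_
  unfold mH
  ring

end FB
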