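import Pool.Agent.FB.Iface2

/-! MP_15d50e_gt, module HOPF: Laurent coefficients of the Hopf differential (definitions). -/

set_option autoImplicit false

open Complex Set
open scoped ComplexConjugate Real

namespace FB

/-- The sum of the four products. -/
noncomputable def qH (ω : ℂ → ℂ) (z : ℂ) : ℂ :=
  -(ω z * ω (-z)) + ω (I * z) * ω (-(I * z))
    - conj (ω (conj z) * ω (-(conj z))) + conj (ω (I * conj z) * ω (-(I * conj z)))

/-- Laurent coefficients of `z ω(z)` in the variable `z/t`: `y_0 = β/2`, `y_n = n a_n`,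
`y_{-n} = - n (-1)^n conj b_n`. -/
noncomputable def yH (β : ℝ) (a b : ℕ → ℂ) (n : ℤ) : ℂ :=
  if 0 < n then (n : ℂ) * a n.natAbs
  else if n < 0 then (n : ℂ) * (-1) ^ n.natAbs * conj (b n.natAbs) else (β : ℂ) / 2

/-- Coefficients of `-z² ω(z) ω(-z)`. -/
noncomputable def sH (β : ℝ) (a b : ℕ → ℂ) : ℤ → ℂ := conv (yH β a b) (cj (yH β a b))

/-- Coefficients of `z² q(z)`: `h_n = 4 Re s_n` if `4 ∣ n`, `0` otherwise. -/
noncomputable def hH (β : ℝ) (a b : ℕ → ℂ) (n : ℤ) : ℂ :=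
  if (4 : ℤ) ∣ n then ((4 * (sH β a b n).re : ℝ) : ℂ) else 0

end FB
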