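import Pool.Agent.FB.HopfC.Exp

/-! MP_15d50e_gt, module HOPF: uniqueness of Laurent coefficients; the symmetry `h_{-n} = h_n`. -/

set_option autoImplicit false

open Complex Set MeasureTheory
open scoped ComplexConjugate Real

namespace FB

theorem integral_exp_int {k : ℤ} (hk : k ≠ 0) :
    (∫ x in (0 : ℝ)..(2 * π), cexp (((k : ℂ) * I) * x)) = 0 := by
  have hc : (k : ℂ) * I ≠ 0 := mul_ne_zero (by exact_mod_cast hk) I_ne_zero
  rw [integral_exp_mul_complex hc]
  have h1 : cexp ((k : ℂ) * I * ((2 * π : ℝ) : ℂ)) = 1 := by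
    rw [show (k : ℂ) * I * ((2 * π : ℝ) : ℂ) = (k : ℂ) * (2 * π * I) by push_cast; ring]
    exact Complex.exp_int_mul_two_pi_mul_I k
  rw [h1]
  simp

/-- If an absolutely convergent Laurent series vanishes on the unit circle then its coefficients
vanish. -/
theorem laurent_unique {c : ℤ → ℂ} (hc : Summable fun n => ‖c n‖)
    (h : ∀ u : ℂ, ‖u‖ = 1 → HasSum (fun n : ℤ => c n * u ^ n) 0) : c = 0 := by
  funext m
  have hpi : (0 : ℝ) ≤ 2 * π := by positivity
  let F : ℤ → ℝ → ℂ := fun n x => c n * cexp (((n - m : ℤ) : ℂ) * I * x)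
  have hFn : ∀ n x, ‖F n x‖ = ‖c n‖ := by
    intro n x
    have : cexp (((n - m : ℤ) : ℂ) * I * x) = cexp ((((n - m : ℤ) : ℝ) * x : ℝ) * I) := by
      congr 1
      push_cast
      ring
    simp only [F]
    rw [norm_mul, this, Complex.norm_exp_ofReal_mul_I, mul_one]
  have hFc : ∀ n, Continuous (F n) := by
    intro n
    simp only [F]
    fun_prop
  have hint : ∀ n, Integrable (F n) (volume.restrict (Ioc 0 (2 * π))) := fun n =>
    ((hFc n).continuousOn.integrableOn_compact isCompact_Icc).mono_set Ioc_subset_Icc_self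
  have hsumI : Summable fun n => ∫ x, ‖F n x‖ ∂(volume.restrict (Ioc 0 (2 * π))) := by
    refine (hc.mul_right (2 * π)).congr fun n => ?_
    simp only [hFn]
    rw [← intervalIntegral.integral_of_le hpi, intervalIntegral.integral_const]
    simp [mul_comm]
  have h1 := hasSum_integral_of_summable_integral_norm hint hsumI
  have h2 : ∀ x : ℝ, ∑' n, F n x = 0 := by
    intro x
    have hu : ‖cexp (x * I)‖ = 1 := Complex.norm_exp_ofReal_mul_I x
    have h3 := (h _ hu).mul_right (cexp (x * I) ^ (-m))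
    rw [zero_mul] at h3
    have h4 : HasSum (fun n => F n x) 0 := by
      refine hopf_congr h3 (fun n => ?_) rfl
      have h5 : cexp (x * I) ^ n * cexp (x * I) ^ (-m) = cexp (((n - m : ℤ) : ℂ) * I * x) := by
        rw [← zpow_add₀ (Complex.exp_ne_zero _), ← Complex.exp_int_mul]
        congr 1
        push_cast
        ring
      simp only [F]
      rw [← h5]
      ring
    exact h4.tsum_eq
  have h5 : (∫ x, ∑' n, F n x ∂(volume.restrict (Ioc 0 (2 * π)))) = 0 := by
    simp only [h2]
    simp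
  rw [h5] at h1
  have h6 : ∀ n, (∫ x, F n x ∂(volume.restrict (Ioc 0 (2 * π)))) =
      if n = m then c m * (2 * π) else 0 := by
    intro n
    rw [← intervalIntegral.integral_of_le hpi]
    simp only [F]
    rw [intervalIntegral.integral_const_mul]
    by_cases hn : n = m
    · subst hn
      rw [if_pos rfl]
      simp
    · rw [if_neg hn, integral_exp_int (sub_ne_zero.2 hn), mul_zero]
  simp only [h6] at h1
  have h7 := h1.unique (hasSum_ite_eq m (c m * (2 * π)))
  have h8 : (2 * (π : ℂ)) ≠ 0 := by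
    simp
  have h9 : c m * (2 * π) = 0 := h7.symm
  simpa [h8] using h9

/-- If `z² q(z)` is real on the circle `|z| = t` then `h_{-n} = h_n`. -/
theorem hH_symm {t β : ℝ} {a b : ℕ → ℂ} {ψ ω : ℂ → ℂ} (t0 : 0 < t) (t8 : t < 1 / 8)
    (hb : Summable (fun n : ℕ => 2 ^ n * ‖b n‖)) (hL : IsLocal t β a b ψ ω)
    (hreal : ∀ z : ℂ, ‖z‖ = t → (z ^ 2 * qH ω z).im = 0) :
    ∀ n : ℤ, hH β a b (-n) = hH β a b n := by
  have htc : (t : ℂ) ≠ 0 := by exact_mod_cast t0.ne'
  have hconj : ∀ n : ℤ, conj (hH β a b n) = hH β a b n := by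
    intro n
    unfold hH
    split_ifs
    · rw [conj_ofReal]
    · simp
  have hz : ∀ u : ℂ, ‖u‖ = 1 → ‖(t : ℂ) * u‖ = t := by
    intro u hu
    rw [norm_mul, hu, mul_one, Complex.norm_real, Real.norm_of_nonneg t0.le]
  have hexp : ∀ u : ℂ, ‖u‖ = 1 →
      HasSum (fun n : ℤ => hH β a b n * u ^ n) (((t : ℂ) * u) ^ 2 * qH ω ((t : ℂ) * u)) := by
    intro u hu
    have h1 := hH_exp t0 hb hL ((t : ℂ) * u) (by rw [hz u hu]; linarith) (by rw [hz u hu]; linarith)
    rwa [mul_div_cancel_left₀ _ htc] at h1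
  have hone := hexp 1 (by simp)
  have hsum : Summable fun n : ℤ => ‖hH β a b n‖ := by
    refine hone.summable.norm.congr fun n => ?_
    simp
  have hsum' : Summable fun n : ℤ => ‖hH β a b (-n)‖ :=
    (Equiv.neg ℤ).summable_iff.2 hsum
  have key : (fun n : ℤ => hH β a b n - hH β a b (-n)) = 0 := by
    refine laurent_unique ?_ fun u hu => ?_
    · exact Summable.of_nonneg_of_le (fun n => norm_nonneg _) (fun n => norm_sub_le _ _)
        (hsum.add hsum')
    · have h1 := hexp u hu
      have h2 := hasSum_conj'.2 h1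
      have hu0 : u ≠ 0 := by
        intro h
        rw [h, norm_zero] at hu
        norm_num at hu
      have hcu : conj u = u⁻¹ := by
        rw [Complex.inv_def, Complex.normSq_eq_norm_sq, hu]
        simp
      have h3 : HasSum (fun n : ℤ => hH β a b n * u ^ (-n))
          (conj (((t : ℂ) * u) ^ 2 * qH ω ((t : ℂ) * u))) := by
        refine hopf_congr h2 (fun n => ?_) rfl
        rw [map_mul, hconj, map_zpow₀, hcu, inv_zpow, zpow_neg]
      have h4 : HasSum (fun n : ℤ => hH β a b (-n) * u ^ n)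
          (conj (((t : ℂ) * u) ^ 2 * qH ω ((t : ℂ) * u))) := by
        have h5 := (Equiv.neg ℤ).hasSum_iff.2 h3
        refine hopf_congr h5 (fun n => ?_) rfl
        simp
      have hr := hreal _ (hz u hu)
      have hc : conj (((t : ℂ) * u) ^ 2 * qH ω ((t : ℂ) * u)) =
          ((t : ℂ) * u) ^ 2 * qH ω ((t : ℂ) * u) := Complex.conj_eq_iff_im.2 hr
      rw [hc] at h4
      refine hopf_congr (h1.sub h4) (fun n => ?_) (by ring)
      ring
  intro n
  have h1 := congrFun key n
  simp only [Pi.zero_apply] at h1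
  exact (sub_eq_zero.1 h1).symm

end FB
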